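import Pool.Agent.Run7.h495.SV.Stm

/-! Piece DEC of project SV (helper495), by helper774. -/

set_option autoImplicit false
open MeasureTheory Set Filter Topology Metric Module
open scoped ENNReal RealInnerProductSpace ContDiff FourierTransform SchwartzMap

namespace Pool.Agent.Run7.h774.SV

open Pool.Agent.Run7.h495.SV

theorem t_DEC : S_DEC := by
  intro n φ hφ
  have hc : HasCompactSupport (fun x => (φ x : ℂ)) := hφ.compact.comp_left (g := fun r : ℝ => (r : ℂ)) (by simp)
  have hs : ContDiff ℝ ∞ (fun x => (φ x : ℂ)) := Complex.ofRealCLM.contDiff.comp hφ.smooth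
  let f : 𝓢(Eu n, ℂ) := hc.toSchwartzMap hs
  have hf : ∀ x, f x = (φ x : ℂ) := fun x => rfl
  let g : 𝓢(Eu n, ℂ) := 𝓕 f
  set c : ℝ := (2 * Real.pi)⁻¹ with hcdef
  have hc0 : c ≠ 0 := by rw [hcdef]; positivity
  have hg : ∀ ξ, ft φ ξ = g (c • ξ) := by
    intro ξ
    have h1 : g (c • ξ) = 𝓕 (f : Eu n → ℂ) (c • ξ) := rfl
    rw [h1, Real.fourier_eq']
    unfold ft
    refine integral_congr_ae (Eventually.of_forall fun x => ?_)
    simp only [smul_eq_mul, hf]
    congr 2
    rw [real_inner_smul_right, hcdef]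
    have : -2 * Real.pi * ((2 * Real.pi)⁻¹ * ⟪x, ξ⟫) = -⟪x, ξ⟫ := by
      have := Real.pi_ne_zero
      field_simp
    rw [this]
    push_cast
    rfl
  have hfun : ft φ = fun ξ => g (c • ξ) := funext hg
  refine ⟨?_, ?_, ?_⟩
  · rw [hfun]
    exact g.continuous.comp (continuous_const_smul c)
  · have h0 := ((g.integrable_pow_mul volume 0).comp_smul hc0)
    have h1 := ((g.integrable_pow_mul volume 1).comp_smul hc0)
    refine (h0.add (h1.const_mul |c|⁻¹)).congr (Eventually.of_forall fun x => ?_)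
    simp only [Pi.add_apply, pow_zero, pow_one, one_mul]
    rw [hg, norm_smul, Real.norm_eq_abs]
    have : |c| ≠ 0 := abs_ne_zero.2 hc0
    field_simp
  · rw [hfun]
    rw [Measure.integral_comp_smul (volume : Measure (Eu n)) (fun x => g x) c]
    have h1 : ∫ x, g x = 0 := by
      have h2 : 𝓕⁻ (𝓕 f) = f := FourierTransform.fourierInv_fourier_eq f
      have h3 : (𝓕⁻ (𝓕 f) : 𝓢(Eu n, ℂ)) 0 = 𝓕⁻ ((𝓕 f : 𝓢(Eu n, ℂ)) : Eu n → ℂ) 0 := by
        rw [SchwartzMap.fourierInv_coe]
      rw [h2, Real.fourierInv_eq'] at h3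
      simp only [inner_zero_right, mul_zero, Complex.ofReal_zero, zero_mul, Complex.exp_zero, one_smul] at h3
      change f 0 = ∫ x, g x at h3
      rw [← h3, hf, image_eq_zero_of_notMem_tsupport hφ.zero, Complex.ofReal_zero]
    rw [h1, smul_zero]

end Pool.Agent.Run7.h774.SV
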