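import Pool.Agent.Run7.h495.SV.Stm

/-! Piece PARS of project SV (helper495), by helper774. -/

set_option autoImplicit false
open MeasureTheory Set Filter Topology Metric Module
open scoped ENNReal RealInnerProductSpace ContDiff

namespace Pool.Agent.Run7.h774.SV

open Pool.Agent.Run7.h495.SV

lemma ker_norm {n : ℕ} (x ξ : Eu n) : ‖Complex.exp (-((⟪x, ξ⟫ : ℝ) : ℂ) * Complex.I)‖ = 1 := by
  rw [← Complex.ofReal_neg, Complex.norm_exp_ofReal_mul_I]

lemma ker_cont {n : ℕ} : Continuous fun p : Eu n × Eu n => Complex.exp (-((⟪p.2, p.1⟫ : ℝ) : ℂ) * Complex.I) := by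
  fun_prop

/-- the transform is self-adjoint -/
lemma ft_swap {n : ℕ} (f g : Eu n → ℝ) (hf : Integrable f) (hg : Integrable g) :
    ∫ x, (f x : ℂ) * ft g x = ∫ y, ft f y * (g y : ℂ) := by
  have hint : Integrable (Function.uncurry fun x y : Eu n =>
      (f x : ℂ) * (Complex.exp (-((⟪y, x⟫ : ℝ) : ℂ) * Complex.I) * (g y : ℂ))) (volume.prod volume) := by
    have h1 : Integrable (fun z : Eu n × Eu n => (f z.1 : ℂ) * (g z.2 : ℂ)) (volume.prod volume) :=
      (hf.ofReal (𝕜 := ℂ)).mul_prod (hg.ofReal (𝕜 := ℂ))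
    have h2 := h1.bdd_mul (c := 1) (f := fun p : Eu n × Eu n => Complex.exp (-((⟪p.2, p.1⟫ : ℝ) : ℂ) * Complex.I))
      ker_cont.aestronglyMeasurable (Eventually.of_forall fun p => (ker_norm _ _).le)
    refine h2.congr (Eventually.of_forall fun p => ?_)
    simp only [Function.uncurry]
    ring
  calc ∫ x, (f x : ℂ) * ft g x
      = ∫ x, ∫ y, (f x : ℂ) * (Complex.exp (-((⟪y, x⟫ : ℝ) : ℂ) * Complex.I) * (g y : ℂ)) := by
        refine integral_congr_ae (Eventually.of_forall fun x => ?_)
        simp only [ft]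
        rw [integral_const_mul]
    _ = ∫ y, ∫ x, (f x : ℂ) * (Complex.exp (-((⟪y, x⟫ : ℝ) : ℂ) * Complex.I) * (g y : ℂ)) :=
        integral_integral_swap hint
    _ = ∫ y, ft f y * (g y : ℂ) := by
        refine integral_congr_ae (Eventually.of_forall fun y => ?_)
        simp only [ft]
        rw [← integral_mul_const]
        refine integral_congr_ae (Eventually.of_forall fun x => ?_)
        simp only [real_inner_comm y x]
        ring

theorem t_PARS (hC : S_COV) : S_PARS := by
  intro n φ hφ s hs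
  have hφi : Integrable φ := hφ.smooth.continuous.integrable_of_hasCompactSupport hφ.compact
  have hci : Integrable (fun x : Eu n => cov (s • x)) := (hC n 0).1.comp_smul hs.ne'
  rw [ft_swap (fun x : Eu n => cov (s • x)) φ hci hφi, ← integral_complex_ofReal]
  refine integral_congr_ae (Eventually.of_forall fun ξ => ?_)
  have h1 : ft (fun x : Eu n => cov (s • x)) ξ = ((s ^ (-(n : ℝ)) : ℝ) : ℂ) * (covHat (s⁻¹ • ξ) : ℂ) := by
    have h2 := Measure.integral_comp_smul (volume : Measure (Eu n))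
      (fun u : Eu n => Complex.exp (-((⟪u, s⁻¹ • ξ⟫ : ℝ) : ℂ) * Complex.I) * (cov u : ℂ)) s
    have h3 : ft (fun x : Eu n => cov (s • x)) ξ =
        ∫ x : Eu n, Complex.exp (-((⟪s • x, s⁻¹ • ξ⟫ : ℝ) : ℂ) * Complex.I) * (cov (s • x) : ℂ) := by
      unfold ft
      refine integral_congr_ae (Eventually.of_forall fun x => ?_)
      simp only
      have : (⟪s • x, s⁻¹ • ξ⟫ : ℝ) = ⟪x, ξ⟫ := by
        rw [real_inner_smul_left, real_inner_smul_right, ← mul_assoc, mul_inv_cancel₀ hs.ne', one_mul]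
      rw [this]
    have h4 := (hC n (s⁻¹ • ξ)).2
    unfold ft at h4
    rw [h3, h2, h4, finrank_euclideanSpace, Fintype.card_fin, abs_of_nonneg (by positivity),
      Real.rpow_neg hs.le, Real.rpow_natCast]
    rfl
  simp only [h1]
  push_cast
  ring

end Pool.Agent.Run7.h774.SV
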